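import Pool.Agent.K7x.EQ.Lvl

/-!
# The distributions of one level, with general numbers
-/

set_option autoImplicit false
set_option linter.unusedSectionVars false

namespace Pool.Agent.K7x.ER

open Finset H568R2 Pool.Agent.H676 Pool.Agent.H9x.RT Pool.Agent.K7x.EQ

open Classical in
/-- closeness of two distributions for suitable functions -/
def Cls (t : ℕ) (p L : ℝ) (s : ℕ) (P Q : (Iu (us s) → Bool) → ℝ) : Prop :=
  32 * L ≤ 2 ^ (4 * us s) → ∀ (h : (Iu (us s) → Bool) → Bool) (β : ℝ), β ≤ 1 / 2 ^ (4 * us s) →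
    (∀ c, ∀ ρ, lv 2 (br (rs (fun a => h (Sum.elim a c)) ρ)) 0 ≤ L) →
    (∀ a c, Ex (wq p) (fun ρ : Restr ((Fin (8 * us s * 2) → Bool) × (Fin (8 * us s) → Bool)) =>
      if ¬ DTr t (rs (fun b => h (Sum.elim a (Sum.elim b c))) ρ) then (1 : ℝ) else 0) ≤ β) →
    (∀ a b, Ex (wq p) (fun ρ : Restr (Fin (m2e (us s)) → Bool) =>
      if ¬ DTr t (rs (fun c => h (Sum.elim a (Sum.elim b c))) ρ) then (1 : ℝ) else 0) ≤ β) →
    |∑ a, P a * br h a - ∑ a, Q a * br h a| ≤ dl s L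

/-- **The two distributions of one level.** -/
theorem exists_gen {t : ℕ} {p L : ℝ} (hp0 : 0 < p) (hp1 : p ≤ 1) (hL1 : 1 ≤ L)
    (hLp : (1 + (t : ℝ)) ^ 2 ≤ 2 * L * p) (s : ℕ) :
    ∃ P Q : (Iu (us s) → Bool) → ℝ,
      (∀ a, 0 ≤ P a) ∧ ∑ a, P a = 1 ∧ (∀ a, P a ≠ 0 → va (us s) a = 1) ∧
      (∀ a, 0 ≤ Q a) ∧ ∑ a, Q a = 1 ∧ (∀ a, Q a ≠ 0 → va (us s) a = 0) ∧ Cls t p L s P Q := by
  by_cases hbig : 32 * L ≤ 2 ^ (4 * us s)
  · obtain ⟨P, Q, h1, h2, h3, h4, h5, h6, h7⟩ := exists_dist2 (u := us s) (t := t)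
      (Λ := 2 * L) (by rw [us_eq]; omega) hp0 hp1 hLp (by linarith)
    refine ⟨P, Q, h1, h2, h3, h4, h5, h6, fun _ h β hβ hlv hb1 hb2 => ?_⟩
    refine (h7 h L β hL1 hlv hb1 hb2).trans ?_
    set U : ℝ := 2 ^ (4 * us s) with hU
    have hU0 : 0 < U := by positivity
    have h8 : (L + 9) / 2 ^ (8 * us s) ≤ 10 * L / U := by
      have e1 : U ≤ 2 ^ (8 * us s) := pow_le_pow_right₀ (by norm_num) (by omega)
      calc (L + 9) / 2 ^ (8 * us s) ≤ (L + 9) / U :=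
            div_le_div_of_nonneg_left (by linarith) hU0 e1
        _ ≤ 10 * L / U := div_le_div_of_nonneg_right (by linarith) hU0.le
    have h9 : 4 * (26 * (2 * L) / U + β) + (L + 9) / 2 ^ (8 * us s) ≤ 222 * L / U := by
      have e1 : 222 * L / U = 4 * (26 * (2 * L) / U) + 4 * (L / U) + 10 * L / U := by ring
      have e2 : 1 / U ≤ L / U := div_le_div_of_nonneg_right hL1 hU0.le
      rw [e1]
      linarith
    refine h9.trans ?_
    unfold dl
    rw [div_le_div_iff₀ hU0 (by positivity)]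
    have e3 : U = 1048576 * (2 ^ s * 8 ^ s) := by
      rw [hU]
      have : (8 : ℝ) ^ s = 2 ^ (3 * s) := by rw [pow_mul]; norm_num
      rw [this, ← pow_add, show 4 * us s = 20 + (s + 3 * s) by rw [us_eq]; ring, pow_add]
      norm_num
    rw [e3]
    have e4 : (1 : ℝ) ≤ 2 ^ s := one_le_pow₀ (by norm_num)
    have e5 : (0 : ℝ) < 8 ^ s := by positivity
    have e6 : (8 : ℝ) ^ s ≤ 2 ^ s * 8 ^ s := le_mul_of_one_le_left e5.le e4
    calc 222 * L * 8 ^ s ≤ 222 * L * (2 ^ s * 8 ^ s) :=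
          mul_le_mul_of_nonneg_left e6 (by positivity)
      _ ≤ L * (1048576 * (2 ^ s * 8 ^ s)) := by
        have : (0 : ℝ) ≤ L * (2 ^ s * 8 ^ s) := by positivity
        linarith
  · obtain ⟨P, Q, h1, h2, h3, h4, h5, h6, _⟩ := exists_dist2 (u := us s) (t := 0) (p := 1) (Λ := 1)
      (by rw [us_eq]; omega) (by norm_num) le_rfl (by norm_num) (by
        have : (2 : ℝ) ^ 4 ≤ 2 ^ (4 * us s) :=
          pow_le_pow_right₀ (by norm_num) (by rw [us_eq]; omega)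
        linarith)
    exact ⟨P, Q, h1, h2, h3, h4, h5, h6, fun h => absurd h hbig⟩

end Pool.Agent.K7x.ER
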