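import Pool.Agent.K7x.ER.One
import Pool.Agent.K7x.EQ.W1
import Pool.Agent.H9x.RU.World

/-!
# The world in which `EQP = PSPACE` and the polynomial hierarchy is infinite
-/

set_option autoImplicit false

namespace Pool.Agent.K7x.ER

open Pool.Agent.NPC Pool.Agent.H622R2 Pool.Agent.H620R2.Gauge Pool.Agent.H622R2.Exp
  Pool.Agent.TH678.ETH Pool.Agent.TH678.SETH Pool.Agent.TH678.RS Pool.Agent.H9x.Q Filter
  Pool.Agent.H591R3.PHG

open Pool.Agent.H9x.V1 (Ac ac_congr poly_rep poly_cS finite_ext)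

open Pool.Agent.H9x.RT (lev mkp)

open Pool.Agent.H9x.RU (Dt Kr Smp fo la le_la Rt rt_iff SZ exists_SZ LQ exists_kr code_true
  lang_sig' Req rt_congr)

open Pool.Agent.K7x.EQ (us us_eq Iu m2e Yes No yes_enc no_enc LA IsEQP isEQP_of Pj Pm Pk Pj_eval
  Pm_eval Pk_eval va Rp KK pos Cn m1 m2 Am Ig exists_lvl)

variable {S : ℕ → Polynomial ℕ} {g : ℕ → SAlg × Polynomial ℕ}

/-- the questions about the zero string -/
theorem base_Z (D : Dt) {K : ℕ} (u : Fin K → Bool) :
    orc S g D ([false, false] ++ List.ofFn u) = true ↔ u = fun _ => false := by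
  have h1 : [false, false] ++ List.ofFn u = false :: false :: List.ofFn u := rfl
  rw [h1, orc_off D (fun p hp => by simp [cJ] at hp)]
  show decide (∀ b ∈ List.ofFn u, b = false) = true ↔ _
  rw [decide_eq_true_iff]
  constructor
  · intro h2
    funext t
    exact h2 _ (List.mem_ofFn.2 ⟨t, rfl⟩)
  · rintro rfl b hb
    obtain ⟨t, rfl⟩ := List.mem_ofFn.1 hb
    rfl

/-- **A criterion for the membership in exact quantum polynomial time.** -/
theorem eqp_of_cont {D : Dt} {L : Set (List Bool)} (pre : List Bool → List Bool)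
    (p : Polynomial ℕ) (hpre : Poly fun u : List Bool => pre u)
    (hpre' : ∀ u v : List Bool, u.length = v.length → pre u = pre v)
    {c : List Bool → List Bool → Bool}
    (hc : ∀ x w : List Bool, w.length = LA (p.eval x.length) →
      orc S g D (pre x ++ (x ++ w)) = c x w)
    (hL : ∀ x : List Bool, (x ∈ L → Yes (p.eval x.length) (c x)) ∧
      (x ∉ L → No (p.eval x.length) (c x))) :
    IsEQP (orc S g D) L := by
  refine isEQP_of pre (fun _ => [false, false]) (Pj p) (Pj p) (Pm p) (Pk p) hpre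
    (NPC.Poly.const _) hpre' (fun _ _ _ => rfl) (fun x u => base_Z D u) fun x => ?_
  have key : ∀ v : ℝ, (∃ z, Rp (us (p.eval x.length)) (c x) z ∧
      va (us (p.eval x.length)) z = v) →
      ∃ z : Ig ((Pj p).eval x.length * 2) ((Pj p).eval x.length) ((Pm p).eval x.length) → Bool,
      (∀ a b' (u : Fin (KK ((Pj p).eval x.length * 2) ((Pj p).eval x.length)
        ((Pm p).eval x.length)) → Bool),
        orc S g D (pre x ++ (x ++ (a :: b' :: List.ofFn u))) = Cn z a b' (u ∘ pos _ _ _)) ∧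
      Am ((Pk p).eval x.length) ((EQ.fo z + m1 z) / 2) + m2 z = v := by
    rintro v ⟨z, hz, hz'⟩
    rw [Pj_eval, Pm_eval, Pk_eval]
    refine ⟨z, fun a b' u => ?_, hz'⟩
    rw [hc x (a :: b' :: List.ofFn u) (by
      rw [List.length_cons, List.length_cons, List.length_ofFn]
      unfold LA
      omega)]
    exact hz a b' u
  by_cases hx : x ∈ L
  · obtain ⟨z, h1, h2⟩ := key 1 ((hL x).1 hx)
    exact ⟨z, h1, fun _ => h2, fun h3 => absurd hx h3⟩
  · obtain ⟨z, h1, h2⟩ := key 0 ((hL x).2 hx)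
    exact ⟨z, h1, fun h3 => absurd h3 hx, fun _ => h2⟩

/-- **Polynomial space in exact quantum polynomial time.** -/
theorem eqp_of_pspace (hg : Function.Surjective g) (hc : Kr g S) {D : Dt} (hD : Good S D.bl)
    {L : Set (List Bool)} (hL : IsPSPACE (orc S g D) L) : IsEQP (orc S g D) L := by
  obtain ⟨e, he⟩ := code_true hg hc _ hL
  have hlen : UPoly (fun u : List Bool => u.length) := UPoly.length Poly.id
  have hSe : UPoly (fun u : List Bool => (S e).eval u.length) := hlen.eval (S e)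
  refine eqp_of_cont (fun u => false :: true :: cS e ((S e).eval u.length) []) (S e)
    ?_ (fun u v huv => by simp only [huv]) (c := fun x w => D.bl (e, x)
      (@decide (Ac g S e x (orc S g D)) (Classical.propDecidable _)) w) (fun x w hw => ?_)
    fun x => ?_
  · exact Poly.cons (NPC.Poly.const _) (Poly.cons (NPC.Poly.const _)
      (poly_cS e hSe (NPC.Poly.const [])))
  · have h1 : (false :: true :: cS e ((S e).eval x.length) []) ++ (x ++ w) =
        cJ (⟨e, x, w, hw⟩ : Jx S) := by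
      show _ = false :: true :: cS e ((S e).eval x.length) (x ++ w)
      simp [cS, pr]
    rw [h1, orc_on]
  · have hb := hD (e, x)
    constructor
    · intro hx
      have h2 : @decide (Ac g S e x (orc S g D)) (Classical.propDecidable _) = true := by
        exact (@decide_eq_true_iff _ (Classical.propDecidable _)).2 ((he x).2 hx)
      rw [h2]
      exact hb.1
    · intro hx
      have h2 : @decide (Ac g S e x (orc S g D)) (Classical.propDecidable _) = false := by
        exact (@decide_eq_false_iff_not _ (Classical.propDecidable _)).2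
          fun h3 => hx ((he x).1 h3)
      rw [h2]
      exact hb.2

/-- the data of one level -/
abbrev Lv : Type := (ℕ × List Bool → Bool → List Bool → Bool) × (List Bool → Bool)

/-- the data given by the levels -/
def dat (S : ℕ → Polynomial ℕ) (κ : ℕ → Lv) : Dt :=
  ⟨fun c => (κ (lev S c)).1 c, fun u => (κ u.length).2 u⟩

/-- the data of one level are good -/
def GLv (S : ℕ → Polynomial ℕ) (s : ℕ) (v : Lv) : Prop :=
  ∀ c, lev S c = s → Yes s (v.1 c true) ∧ No s (v.1 c false)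

theorem good_dat {κ : ℕ → Lv} (h : ∀ s, GLv S s (κ s)) : Good S (dat S κ).bl :=
  fun c => h (lev S c) c rfl

/-- **One stage.** -/
theorem stage (cc : Alg → ℕ → ℕ) (hcc : ∀ (M : Alg) (k N₀ : ℕ),
    ∃ (n u T Pm Λ m₀ : ℕ) (as : List ℕ), N₀ ≤ n ∧ 5 ≤ n ∧ 8 * u ≤ n ∧ SZ n u k as ∧
      (∀ j : Fin (2 ^ (u + 11)), (enc as (8 * n) (bitsOf (u + 11) j)).length = m₀) ∧ n ≤ m₀ ∧
      (k + 1) * (2 * Pm + 1) + m₀ ≤ Λ ∧
      (∀ y : List Bool, y.length ≤ Λ → M.p.eval y.length ≤ T) ∧
      (∀ (A : Oracle) (y : List Bool), y.length ≤ Λ → M.out (CC.cut T A) y = M.out A y) ∧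
      Λ ≤ T ∧ 33 * T + 164 + k ≤ 2 ^ (2 * u) ∧
      ((Pm : ℝ) + 1) * (k * (2 ^ (Λ + 2) * (1 / 2) ^ (2 ^ (2 * u) + 1)) +
        3 * (1 / 2) ^ (2 ^ u)) + ((Pm : ℝ) + 1) * ((T + 1) * (214 * (LQ u k : ℝ) / 2 ^ n)) < 1 ∧
      2 ^ (m₀ / cc M k) ≤ Pm) (hc : Kr g S) (r : Alg × ℕ × ℕ) (N₀ : ℕ) (κ : ℕ → Lv)
    (hκ : ∀ s, GLv S s (κ s)) :
    ∃ (κ' : ℕ → Lv) (N' : ℕ), (∀ s, GLv S s (κ' s)) ∧ (∀ s < N₀, κ' s = κ s) ∧
      ∀ κ'' : ℕ → Lv, (∀ s, GLv S s (κ'' s)) → (∀ s < N', κ'' s = κ' s) →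
        Req cc (orc S g (dat S κ'')) r := by
  obtain ⟨M, k, i⟩ := r
  obtain ⟨n, u, T, Pm, Λ, m₀, as, h1, h2, h3, hsz, hm, hnm, hΛ, hp, hcut, hΛT, h33, hnum, hPm⟩ :=
    hcc M k (N₀ + i)
  obtain ⟨D', hD', hb, hf, hne⟩ := one_step (Pm := Pm) hc M h2 h3 hsz hm hnm hΛ hp hcut hΛT h33
    hnum (dat S κ) (good_dat hκ)
  set κ' : ℕ → Lv := fun s => if s < N₀ then κ s else (D'.bl, D'.fr) with hκ'
  have hdat : dat S κ' = D' := by
    have e1 : (dat S κ').bl = D'.bl := by
      funext c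
      show (κ' (lev S c)).1 c = _
      rw [hκ']
      simp only
      split_ifs with hlt
      · rw [hb c (by omega)]
        rfl
      · rfl
    have e2 : (dat S κ').fr = D'.fr := by
      funext v
      show (κ' v.length).2 v = _
      rw [hκ']
      simp only
      split_ifs with hlt
      · rw [hf v (by omega)]
        rfl
      · rfl
    cases D'
    simp only at e1 e2
    rw [← e1, ← e2]
  refine ⟨κ', T + m₀ + as.sum + 8 * n + 2, fun s => ?_,
    fun s hs => by rw [hκ']; exact if_pos hs, fun κ'' _ hag => ⟨m₀, by show i ≤ m₀; omega,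
      fun P hP => ?_⟩⟩
  · rw [hκ']
    simp only
    split_ifs with hlt
    · exact hκ s
    · intro c hcs
      have := hD' c
      rw [hcs] at this
      exact this
  · have hloc : ∀ q : List Bool, q.length ≤ T + m₀ + as.sum + 8 * n + 1 →
        orc S g (dat S κ'') q = orc S g D' q := by
      intro q hq
      refine orc_loc (n := T + m₀ + as.sum + 8 * n + 2) (fun c hc' => ?_) (fun v hv => ?_) _ q rfl
        (by omega)
      · show (κ'' (lev S c)).1 c = _
        rw [hag _ hc', ← hdat]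
        rfl
      · show (κ'' v.length).2 v = _
        rw [hag _ hv, ← hdat]
        rfl
    have hP2 : P ≤ Pm := le_trans hP hPm
    have hΛP : ∀ j : Fin (2 ^ (u + 11)), (pairBits (List.replicate P true) (enc as (8 * n)
        (bitsOf (u + 11) j))).length + k * (2 * P + 1) ≤ Λ := by
      intro j
      rw [length_pairBits, List.length_replicate, hm j]
      have h1 : (k + 1) * (2 * P + 1) ≤ (k + 1) * (2 * Pm + 1) :=
        Nat.mul_le_mul_left _ (by omega)
      have h2 : (k + 1) * (2 * P + 1) = k * (2 * P + 1) + (2 * P + 1) := by ring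
      omega
    have h4 := rt_congr (T := T) (Λ := Λ) (M := M) (w := 8 * n) hsz.1
      (fun j : Fin (2 ^ (u + 11)) => bitsOf (u + 11) j) hΛP hcut hm hloc
    have h5 := hne P hP2
    rw [← h4] at h5
    unfold Rt at h5
    rw [not_forall] at h5
    obtain ⟨j, hj⟩ := h5
    exact ⟨_, hm j, hj⟩

/-- good data exist -/
theorem exists_good (S : ℕ → Polynomial ℕ) : ∃ κ : ℕ → Lv, ∀ s, GLv S s (κ s) := by
  choose P Q _ hP1 hPG _ hQ1 hQG _ using fun s : ℕ => exists_lvl (J := 0) (T := 1) le_rfl s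
  have h1 : ∀ s, ∃ a, P s a ≠ 0 := by
    intro s
    by_contra hcon
    push Not at hcon
    have := hP1 s
    simp [hcon] at this
  have h2 : ∀ s, ∃ a, Q s a ≠ 0 := by
    intro s
    by_contra hcon
    push Not at hcon
    have := hQ1 s
    simp [hcon] at this
  choose u hu using h1
  choose v hv using h2
  have hy : ∀ s, Yes s (EQ.enc (us s) (u s)) := fun s => yes_enc (hPG s _ (hu s))
  have hn : ∀ s, No s (EQ.enc (us s) (v s)) := fun s => no_enc (hQG s _ (hv s))
  exact ⟨fun s => (fun _ t => if t then EQ.enc (us s) (u s) else EQ.enc (us s) (v s),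
    fun _ => false), fun s c _ => ⟨hy s, hn s⟩⟩

/-- **The world in which `EQP = PSPACE` and the polynomial hierarchy is infinite.** -/
theorem world :
    ∃ A : Oracle, (∀ L, IsPSPACE A L → IsEQP A L) ∧
      ∀ k : ℕ, ∃ L, IsSig A (k + 1) L ∧ ∀ (V : List Bool → List Bool) (h : ℕ → ℕ), IsFP A V →
        (∀ c : ℕ, ∀ᶠ n : ℕ in atTop, c * h n ≤ n) → ∃ x, ¬ (x ∈ L ↔
          Quant (2 ^ h x.length) V k true
            (pairBits (List.replicate (2 ^ h x.length) true) x)) := by
  obtain ⟨g, hg⟩ := CC.exists_enum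
  have hne : Nonempty (Alg × ℕ × ℕ) := ⟨⟨⟨fun _ => [], CC.const_polyTime _, 0⟩, 0, 0⟩⟩
  obtain ⟨en, hen⟩ := exists_surjective_nat (Alg × ℕ × ℕ)
  obtain ⟨S, hc⟩ := exists_kr g
  choose cc hcc1 hcc using sizes
  obtain ⟨κ, hκ, hP⟩ := finite_ext (β := Lv) (GLv S)
    (fun j κ => Req cc (orc S g (dat S κ)) (en j))
    (exists_good S) (fun j N₀ κ hκ => stage cc hcc hc (en j) N₀ κ hκ)
  refine ⟨orc S g (dat S κ), fun L hL => eqp_of_pspace hg hc (good_dat hκ) hL, fun k =>
    ⟨lang k (fo (orc S g (dat S κ))), lang_sig' _ k, fun V h hV hh => ?_⟩⟩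
  obtain ⟨M, hM⟩ := hV
  have h1 := hh (cc M k)
  rw [eventually_atTop] at h1
  obtain ⟨i, hi⟩ := h1
  obtain ⟨j, hj⟩ := hen (M, k, i)
  obtain ⟨m₀, h2, h3⟩ := hP j
  rw [hj] at h2 h3
  have h4 : h m₀ ≤ m₀ / cc M k := by
    rw [Nat.le_div_iff_mul_le (hcc1 M k), mul_comm]
    exact hi m₀ h2
  obtain ⟨x, hx, hx2⟩ := h3 (2 ^ h m₀) (Nat.pow_le_pow_right (by norm_num) h4)
  refine ⟨x, ?_⟩
  rw [hx]
  have h5 : (fun y => ((M.out (orc S g (dat S κ))) y).getD []) = V := by
    funext y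
    rw [hM y]
    rfl
  rw [← h5]
  exact hx2

end Pool.Agent.K7x.ER
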