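import Pool.Agent.K7x.ER.Or

/-!
# Random restrictions of conjunctions of alternating quantifiers in front of algorithms
-/

set_option autoImplicit false
set_option linter.unusedSectionVars false

namespace Pool.Agent.K7x.ER

open Finset H568R2 Pool.Agent.H676 Pool.Agent.H620R2.Gauge Pool.Agent.NPC Pool.Agent.H591R3.PHG

open Pool.Agent.H591R3.PHG.FinalAux (DTv)

open Pool.Agent.H9x.RU (lf dtr_lf dtr_of_dtv)

variable {I : Type} [Fintype I] [DecidableEq I]

open Classical in
/-- **A random restriction makes a conjunction of alternating quantifiers a decision tree.** -/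
theorem dtr_all {X : Type} [Fintype X] [DecidableEq X] {t : ℕ} (ht : 1 ≤ t) (m k ℓ : ℕ)
    (F : List Bool → (I → Bool) → Bool)
    (hF : ∀ y : List Bool, y.length ≤ ℓ + k * (2 * m + 1) → DTr t (F y)) (y : X → List Bool)
    (hy : ∀ j, (y j).length ≤ ℓ) (b : Bool) (τ : X → Bool)
    {f : (I → Bool) → Bool} (hf : ∀ z, f z = true ↔ ∀ j, QF m F k b (y j) z ≠ τ j) :
    Ex (wq ((1 / (24 * (t : ℝ))) ^ k)) (fun ρ : Restr I => if ¬ DTr (t * Fintype.card X) (rs f ρ)
      then (1 : ℝ) else 0) ≤ k * 2 ^ (ℓ + k * (2 * m + 1) + 2) * (1 / 2) ^ (t + 1) := by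
  have htR : (1 : ℝ) ≤ t := by exact_mod_cast ht
  set q : ℝ := 1 / (24 * t) with hq
  have h0 : 0 < q := by positivity
  have h1 : q ≤ 1 / 3 := by
    rw [hq]
    refine one_div_le_one_div_of_le (by norm_num) (by linarith)
  have hhalf : 12 * (t : ℝ) * q = 1 / 2 := by
    rw [hq]
    field_simp
    norm_num
  have hsw := switch_alt ht h0.le h1 m F k ℓ hF
  rw [hhalf] at hsw
  have hw : ∀ a, 0 ≤ wq (q ^ k) a :=
    wq_nonneg (pow_nonneg h0.le k) (pow_le_one₀ h0.le (by linarith))
  refine (Ex_mono hw fun ρ => ?_).trans hsw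
  by_cases hg : ∀ y : List Bool, y.length ≤ ℓ → ∀ b, DTr t (rs (QF m F k b y) ρ)
  · rw [if_neg (not_not.2 hg), if_neg]
    rw [not_not]
    have h2 := (DTv.all (g := fun j => rs (QF m F k b (y j)) ρ) fun j => hg (y j) (hy j) b).map
      (fun v : X → Bool => decide (∀ j, v j ≠ τ j))
    have h3 := dtr_of_dtv h2
    refine (congrArg (DTr (t * Fintype.card X)) ?_).mp h3
    funext z
    have h4 := hf (H568R2.ov ρ z)
    show decide (∀ j, QF m F k b (y j) (H568R2.ov ρ z) ≠ τ j) = f (H568R2.ov ρ z)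
    rw [Bool.eq_iff_iff, h4, decide_eq_true_iff]
  · rw [if_pos hg]
    split_ifs <;> norm_num

end Pool.Agent.K7x.ER
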