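import Pool.Agent.K7x.ER.Stp

/-!
# One step of the construction
-/

set_option autoImplicit false

namespace Pool.Agent.K7x.ER

open Finset H568R2 Pool.Agent.H676 Pool.Agent.H620R2.Gauge Pool.Agent.NPC Pool.Agent.H591R3.PHG
  Pool.Agent.H622R2 Pool.Agent.H622R2.Exp

open Pool.Agent.H9x.RT (lev mkp EE EC EC_le hyb exists_list block_diff lv)

open Pool.Agent.H9x.RU (Dt Kr Smp fo la le_la Rt rt_iff SZ exists_SZ LQ LQ_le one_le_LQ lf dtr_lf
  lv_all EE_ge quant_QF)

open Pool.Agent.K7x.EQ (us us_eq Iu m2e Yes No not_yes yes_enc no_enc enc_cls dl sum_dl_le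
  parts1 parts2 va)

variable {S : ℕ → Polynomial ℕ} {g : ℕ → SAlg × Polynomial ℕ}

theorem one_step (hc : Kr g S) {n u k T Pm Λ m₀ : ℕ} (M : Alg) {as : List ℕ} (hn : 5 ≤ n)
    (hu : 8 * u ≤ n) (hsz : SZ n u k as)
    (hm : ∀ j : Fin (2 ^ (u + 11)), (enc as (8 * n) (bitsOf (u + 11) j)).length = m₀)
    (hnm : n ≤ m₀) (hΛ : (k + 1) * (2 * Pm + 1) + m₀ ≤ Λ)
    (hp : ∀ y : List Bool, y.length ≤ Λ → M.p.eval y.length ≤ T)
    (hcut : ∀ (A : Oracle) (y : List Bool), y.length ≤ Λ → M.out (CC.cut T A) y = M.out A y)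
    (hΛT : Λ ≤ T) (h33 : 33 * T + 164 + k ≤ 2 ^ (2 * u))
    (hnum : ((Pm : ℝ) + 1) * (k * (2 ^ (Λ + 2) * (1 / 2) ^ (2 ^ (2 * u) + 1)) +
        3 * (1 / 2) ^ (2 ^ u)) + ((Pm : ℝ) + 1) * ((T + 1) * (214 * (LQ u k : ℝ) / 2 ^ n)) < 1)
    (D : Dt) (hD : Good S D.bl) :
    ∃ D' : Dt, Good S D'.bl ∧ (∀ c, lev S c < n → D'.bl c = D.bl c) ∧
      (∀ v : List Bool, v.length < n → D'.fr v = D.fr v) ∧
      ∀ P ≤ Pm, ¬ Rt k P M (fun j : Fin (2 ^ (u + 11)) => enc as (8 * n) (bitsOf (u + 11) j))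
        (orc S g D') := by
  classical
  by_contra hcon
  push Not at hcon
  have htR : (1 : ℝ) ≤ ((2 ^ (2 * u) : ℕ) : ℝ) := by exact_mod_cast Nat.one_le_two_pow
  have hLQe : (LQ u k : ℝ) = ((((2 ^ (2 * u) * 2 ^ (u + 11) : ℕ) : ℝ)) ^ 2 + 1) *
      (24 * ((2 ^ (2 * u) : ℕ) : ℝ)) ^ (2 * k) := by
    unfold LQ
    push_cast
    ring
  have hLp : (1 + ((2 ^ (2 * u) * 2 ^ (u + 11) : ℕ) : ℝ)) ^ 2 ≤
      2 * (LQ u k : ℝ) * (1 / (24 * ((2 ^ (2 * u) : ℕ) : ℝ))) ^ k := by
    have h1 : 2 * (LQ u k : ℝ) * (1 / (24 * ((2 ^ (2 * u) : ℕ) : ℝ))) ^ k =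
        2 * ((((2 ^ (2 * u) * 2 ^ (u + 11) : ℕ) : ℝ)) ^ 2 + 1) *
          (24 * ((2 ^ (2 * u) : ℕ) : ℝ)) ^ k := by
      have e1 : (24 * ((2 ^ (2 * u) : ℕ) : ℝ)) ^ (2 * k) =
          (24 * ((2 ^ (2 * u) : ℕ) : ℝ)) ^ k * (24 * ((2 ^ (2 * u) : ℕ) : ℝ)) ^ k := by
        rw [two_mul k, pow_add]
      rw [hLQe, e1, one_div, inv_pow]
      have h0 : (24 * ((2 ^ (2 * u) : ℕ) : ℝ)) ^ k ≠ 0 := by positivity
      rw [← mul_assoc, ← mul_assoc, mul_assoc _ _ ((24 * ((2 ^ (2 * u) : ℕ) : ℝ)) ^ k)⁻¹,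
        mul_inv_cancel₀ h0, mul_one]
    rw [h1]
    have h2 : (1 : ℝ) ≤ (24 * ((2 ^ (2 * u) : ℕ) : ℝ)) ^ k := one_le_pow₀ (by linarith)
    have h3 : (1 + ((2 ^ (2 * u) * 2 ^ (u + 11) : ℕ) : ℝ)) ^ 2 ≤
        2 * ((((2 ^ (2 * u) * 2 ^ (u + 11) : ℕ) : ℝ)) ^ 2 + 1) := by
      nlinarith [sq_nonneg (((2 ^ (2 * u) * 2 ^ (u + 11) : ℕ) : ℝ) - 1)]
    exact h3.trans (le_mul_of_one_le_right (by positivity) h2)
  have hL1' : (1 : ℝ) ≤ (LQ u k : ℝ) := by exact_mod_cast one_le_LQ u k
  choose P Q hP0 hP1 hPG hQ0 hQ1 hQG hPQ using fun s : ℕ =>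
    exists_gen (t := 2 ^ (2 * u) * 2 ^ (u + 11)) (p := (1 / (24 * ((2 ^ (2 * u) : ℕ) : ℝ))) ^ k)
      (L := (LQ u k : ℝ)) (by positivity) (pow_le_one₀ (by positivity) (by
        rw [div_le_one (by positivity)]
        linarith)) hL1' hLp s
  obtain ⟨C, hCn, hCm, hCp, hCs⟩ := exists_list hc.big n T
  set xs : Fin (2 ^ (u + 11)) → List Bool := fun j => enc as (8 * n) (bitsOf (u + 11) j) with hxs
  have hxi : Function.Injective xs := by
    intro j j' h
    have h1 := enc_inj _ _ h
    exact Fin.ext (bitsOf_inj j.isLt j'.isLt h1)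
  have hli : Function.Injective (la xs as (8 * n)) := leaf_inj xs hxi m₀ hm as (8 * n)
  set frn : (Idx (Fin (2 ^ (u + 11))) (8 * n :: pw as) → Bool) → List Bool → Bool :=
    fun y => Function.extend (la xs as (8 * n)) y D.fr with hfrn
  have hfr1 : ∀ y a, frn y (la xs as (8 * n) a) = y a := fun y a => hli.extend_apply _ _ _
  have hfr2 : ∀ (y : Idx (Fin (2 ^ (u + 11))) (8 * n :: pw as) → Bool) (v : List Bool),
      (¬ ∃ a, la xs as (8 * n) a = v) → frn y v = D.fr v :=
    fun y v hv => Function.extend_apply' _ _ _ hv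
  have hfr3 : ∀ (y : Idx (Fin (2 ^ (u + 11))) (8 * n :: pw as) → Bool) (v : List Bool),
      v.length < n → frn y v = D.fr v := by
    intro y v hv
    refine hfr2 y v ?_
    rintro ⟨a, rfl⟩
    have := le_la (xs := xs) hm as (8 * n) a
    omega
  set wt : ℕ × (Idx (Fin (2 ^ (u + 11))) (8 * n :: pw as) → Bool) → ℝ :=
    fun i => ∏ a, ber (1 / 2) (i.2 a) with hwt
  set IX : Finset (ℕ × (Idx (Fin (2 ^ (u + 11))) (8 * n :: pw as) → Bool)) :=
    range (Pm + 1) ×ˢ univ with hIX
  set φ : ℕ × (Idx (Fin (2 ^ (u + 11))) (8 * n :: pw as) → Bool) →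
    (ℕ × List Bool → Bool → List Bool → Bool) → ℝ :=
    fun i B => if Rt k i.1 M xs (orc S g ⟨B, frn i.2⟩) then 1 else 0 with hφ
  set F : (ℕ × List Bool → Bool → List Bool → Bool) → ℝ := fun B =>
    ∑ i ∈ IX, wt i * φ i B with hF
  set L : ℝ := (LQ u k : ℝ) with hL
  have hL1 : 1 ≤ L := by rw [hL]; exact_mod_cast one_le_LQ u k
  have hdel : ∀ s, 0 ≤ dl s L := fun s => by
    unfold dl
    positivity
  have hwt0 : ∀ i, 0 ≤ wt i := fun i => prod_nonneg fun a _ =>
    ber_nonneg_m (by norm_num) (by norm_num) _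
  have hwt1 : ∑ y : Idx (Fin (2 ^ (u + 11))) (8 * n :: pw as) → Bool,
      ∏ a, ber (1 / 2) (y a) = 1 := by
    have := Ex_const (I := Idx (Fin (2 ^ (u + 11))) (8 * n :: pw as)) (ber_sum_m (1 / 2)) 1
    unfold Ex at this
    simpa using this
  have hwtS : ∑ i ∈ IX, wt i = (Pm : ℝ) + 1 := by
    rw [hIX, sum_product]
    simp only [hwt]
    rw [hwt1, sum_const, card_range, nsmul_eq_mul, mul_one]
    push_cast
    rfl
  have hk : as.length = k + 1 := hsz.1
  have hlen : ∀ (P' : ℕ) (j : Fin (2 ^ (u + 11))),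
      (pairBits (List.replicate P' true) (enc as (8 * n) (bitsOf (u + 11) j))).length ≤
        2 * P' + 1 + m₀ := by
    intro P' j
    rw [length_pairBits, List.length_replicate, hm j]
  have hΛP : ∀ P' ≤ Pm, 2 * P' + 1 + m₀ + k * (2 * P' + 1) ≤ Λ := by
    intro P' hP'
    have h1 : (k + 1) * (2 * P' + 1) ≤ (k + 1) * (2 * Pm + 1) :=
      Nat.mul_le_mul_left _ (by omega)
    have h2 : (k + 1) * (2 * P' + 1) = k * (2 * P' + 1) + (2 * P' + 1) := by ring
    omega
  have hTt : T ≤ 2 ^ (2 * u) := by omega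
  have hbig : ∀ s, n ≤ s → 32 * (LQ u k : ℝ) ≤ 2 ^ (4 * us s) := by
    intro s hs
    have h1 : (0 : ℝ) ≤ ((Pm : ℝ) + 1) * (k * (2 ^ (Λ + 2) * (1 / 2) ^ (2 ^ (2 * u) + 1)) +
        3 * (1 / 2) ^ (2 ^ u)) := by positivity
    have h2 : ((Pm : ℝ) + 1) * ((T + 1) * (214 * (LQ u k : ℝ) / 2 ^ n)) < 1 := by linarith
    have h3 : 214 * (LQ u k : ℝ) / 2 ^ n ≤
        ((Pm : ℝ) + 1) * ((T + 1) * (214 * (LQ u k : ℝ) / 2 ^ n)) := by
      have h4 : (0 : ℝ) ≤ 214 * (LQ u k : ℝ) / 2 ^ n := by positivity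
      have h5 : (1 : ℝ) ≤ ((Pm : ℝ) + 1) * (T + 1) := by
        have h6 : (0 : ℝ) ≤ (Pm : ℝ) := by positivity
        have h7 : (0 : ℝ) ≤ (T : ℝ) := by positivity
        nlinarith
      calc 214 * (LQ u k : ℝ) / 2 ^ n ≤ (((Pm : ℝ) + 1) * (T + 1)) *
            (214 * (LQ u k : ℝ) / 2 ^ n) := le_mul_of_one_le_left h4 h5
        _ = _ := by ring
    have h4 : 214 * (LQ u k : ℝ) / 2 ^ n < 1 := lt_of_le_of_lt h3 h2
    rw [div_lt_one (by positivity)] at h4
    have h5 : (2 : ℝ) ^ n ≤ 2 ^ (4 * us s) :=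
      pow_le_pow_right₀ (by norm_num) (by rw [us_eq]; omega)
    linarith
  -- the hybrid argument
  have hhyb := hyb (P := fun c => P (lev S c)) (Q := fun c => Q (lev S c))
    (enc := fun c => EQ.enc (us (lev S c))) (fun c => hP0 _) (fun c => hP1 _) (fun c => hQ0 _)
    (fun c => hQ1 _) F (fun c => ((Pm : ℝ) + 1) * dl (lev S c) L) C hCn (by
      intro c C₂ hsuf D' hcol
      have hcC : c ∈ C := hsuf.subset List.mem_cons_self
      obtain ⟨hc1, hc2⟩ := (hCm c).1 hcC
      have hafter : ∀ c', lev S c < lev S c' → lev S c' ≤ T → c' ∈ C₂ := by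
        intro c' h1 h2
        have h3 : c' ∈ C := (hCm c').2 ⟨by omega, h2⟩
        obtain ⟨C₁, hC₁⟩ := hsuf
        rw [← hC₁, List.mem_append] at h3
        rw [← hC₁, List.pairwise_append] at hCp
        rcases h3 with h3 | h3
        · have := hCp.2.2 c' h3 c List.mem_cons_self
          omega
        · rcases List.mem_cons.1 h3 with h3 | h3
          · subst h3
            exact absurd h1 (lt_irrefl _)
          · exact h3
      have claim : ∀ i ∈ IX, |∑ z, ∑ z', P (lev S c) z * (Q (lev S c) z' *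
          φ i (Function.update D' c (mkp (EQ.enc (us (lev S c)) z) (EQ.enc (us (lev S c)) z')))) -
          ∑ z', Q (lev S c) z' * φ i (Function.update D' c (mkp (EQ.enc (us (lev S c)) z')
            (EQ.enc (us (lev S c)) z')))| ≤ dl (lev S c) L := by
        intro i hi
        have hi1 : i.1 ≤ Pm := by
          rw [hIX, mem_product, mem_range] at hi
          omega
        obtain ⟨t, ht⟩ := orc_sel (S := S) (g := g) D' (frn i.2) c
        set hh : (Iu (us (lev S c)) → Bool) → Bool :=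
          fun z => decide (Rt k i.1 M xs (orc S g ⟨Function.update D' c (mkp
            (EQ.enc (us (lev S c)) z) (EQ.enc (us (lev S c)) z)), frn i.2⟩)) with hhh
        have hφh : ∀ z, φ i (Function.update D' c (mkp (EQ.enc (us (lev S c)) z)
            (EQ.enc (us (lev S c)) z))) = br hh z := by
          intro z
          show (if _ then (1 : ℝ) else 0) = if hh z then (1 : ℝ) else 0
          rw [hhh]
          simp only [decide_eq_true_eq]
        refine block_diff (hP1 _) (hQ1 _) (H := br hh) (t := t) (hdel _) (fun z z' => ?_)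
          hφh ?_
        · rw [← hφh]
          show (if Rt k i.1 M xs (orc S g ⟨_, frn i.2⟩) then (1 : ℝ) else 0) =
            if Rt k i.1 M xs (orc S g ⟨_, frn i.2⟩) then (1 : ℝ) else 0
          rw [ht]
          cases t <;> rfl
        · have hFam : Fam S (lev S c) T (fun z => (⟨Function.update D' c (mkp
              (EQ.enc (us (lev S c)) z) (EQ.enc (us (lev S c)) z)), frn i.2⟩ : Dt)) := by
            refine ⟨fun c' h1 z z' => ?_, fun v _ z z' => rfl, fun c' h1 h2 => ?_,
              fun v => Or.inl ⟨frn i.2 v, fun z => rfl⟩⟩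
            · have hne : c' ≠ c := by rintro rfl; exact absurd h1 (lt_irrefl _)
              show Function.update D' c _ c' = Function.update D' c _ c'
              rw [Function.update_of_ne hne, Function.update_of_ne hne]
            · by_cases hne : c' = c
              · right
                intro v
                subst hne
                rcases enc_cls (us (lev S c')) v with ⟨i₀, hi₀⟩ | ⟨v₀, h0⟩
                · right
                  refine ⟨i₀, fun z t => ?_⟩
                  show Function.update D' c' _ c' t v = _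
                  rw [Function.update_self, ← hi₀ z]
                  cases t <;> rfl
                · left
                  refine ⟨v₀, fun z t => ?_⟩
                  show Function.update D' c' _ c' t v = _
                  rw [Function.update_self, ← h0 z]
                  cases t <;> rfl
              · left
                refine ⟨fun z z' => ?_, ?_⟩
                · show Function.update D' c _ c' = Function.update D' c _ c'
                  rw [Function.update_of_ne hne, Function.update_of_ne hne]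
                · rcases h1.eq_or_lt with h3 | h3
                  · exact Or.inl h3.symm
                  · right
                    intro z
                    show Function.update D' c _ c' true = Function.update D' c _ c' false
                    rw [Function.update_of_ne hne]
                    exact hcol c' (hafter c' h3 h2)
          have hP2 := hΛP i.1 hi1
          have hkk : k ≤ 2 ^ k := Nat.lt_two_pow_self.le
          have hd1 : ∀ {I : Type} [Fintype I] [DecidableEq I] {φ' : (I → Bool) →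
              (Iu (us (lev S c)) → Bool)} (hφ' : ∀ i, (∃ c, ∀ z, φ' z i = c) ∨
                ∃ i', ∀ z, φ' z i = z i'),
              Ex (wq ((1 / (24 * ((2 ^ (2 * u) : ℕ) : ℝ))) ^ k)) (fun ρ : Restr I =>
                if ¬ DTr (2 ^ (2 * u) * 2 ^ (u + 11)) (rs (fun a => hh (φ' a)) ρ) then (1 : ℝ)
                  else 0) ≤
              k * 2 ^ (2 * i.1 + 1 + m₀ + k * (2 * i.1 + 1) + 2) * (1 / 2) ^ (2 ^ (2 * u) + 1) := by
            intro I _ _ φ' hφ'
            have hb := blk_dtr (X := Fin (2 ^ (u + 11))) (g := g) (k := k) (P := i.1) (Λ := Λ)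
              (ℓ := 2 * i.1 + 1 + m₀) (t := 2 ^ (2 * u)) (w := 8 * n) (M := M) hFam
              (fun z z' => rfl) hk (fun j : Fin (2 ^ (u + 11)) => bitsOf (u + 11) j) (hlen i.1)
              (hΛP i.1 hi1) hcut Nat.one_le_two_pow (fun y hy => (hp y hy).trans hTt) (f := hh)
              (fun z => by rw [hhh]; exact decide_eq_true_iff) hφ'
            rw [Fintype.card_fin] at hb
            convert hb using 1
          refine hPQ _ (hbig _ hc1) hh
            (k * 2 ^ (2 * i.1 + 1 + m₀ + k * (2 * i.1 + 1) + 2) * (1 / 2) ^ (2 ^ (2 * u) + 1))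
            ?_ (fun c₀ ρ => ?_) (fun a c₀ => ?_) (fun a b₀ => ?_)
          · have e2 : (1 / 2 : ℝ) ^ (2 ^ (2 * u) + 1) = 1 / 2 ^ (2 ^ (2 * u) + 1) := by
              rw [div_pow, one_pow]
            rw [e2, mul_one_div, div_le_div_iff₀ (by positivity) (by positivity), one_mul]
            have e3 : k * 2 ^ (2 * i.1 + 1 + m₀ + k * (2 * i.1 + 1) + 2) *
                2 ^ (4 * us (lev S c)) ≤ 2 ^ (2 ^ (2 * u) + 1) := by
              calc k * 2 ^ (2 * i.1 + 1 + m₀ + k * (2 * i.1 + 1) + 2) * 2 ^ (4 * us (lev S c)) ≤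
                  2 ^ k * 2 ^ (T + 2) * 2 ^ (4 * us (lev S c)) :=
                    Nat.mul_le_mul_right _ (Nat.mul_le_mul hkk
                      (Nat.pow_le_pow_right (by norm_num) (by omega)))
                _ = 2 ^ (k + (T + 2) + 4 * us (lev S c)) := by
                    rw [← pow_add, ← pow_add]
                _ ≤ 2 ^ (2 ^ (2 * u) + 1) := by
                    refine Nat.pow_le_pow_right (by norm_num) ?_
                    rw [us_eq]
                    omega
            exact_mod_cast e3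
          · have hb := blk_lv (X := Fin (2 ^ (u + 11))) (g := g) (k := k) (P := i.1) (Λ := Λ)
              (ℓ := 2 * i.1 + 1 + m₀) (t := 2 ^ (2 * u)) (w := 8 * n) (M := M) hFam
              (fun z z' => rfl) hk (fun j : Fin (2 ^ (u + 11)) => bitsOf (u + 11) j) (hlen i.1)
              (hΛP i.1 hi1) hcut Nat.one_le_two_pow (fun y hy => (hp y hy).trans hTt) ?_ (f := hh)
              (fun z => by rw [hhh]; exact decide_eq_true_iff) c₀ ρ
            · refine hb.trans (le_of_eq ?_)
              rw [hLQe, Fintype.card_fin]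
            · calc k * 2 ^ (2 * i.1 + 1 + m₀ + k * (2 * i.1 + 1) + 2) *
                  (2 ^ (8 * us (lev S c) * 2 + 1)) ^ 2
                  ≤ 2 ^ k * 2 ^ (T + 2) * (2 ^ (8 * us (lev S c) * 2 + 1)) ^ 2 :=
                    Nat.mul_le_mul_right _ (Nat.mul_le_mul hkk
                      (Nat.pow_le_pow_right (by norm_num) (by omega)))
                _ = 2 ^ (k + (T + 2) + (8 * us (lev S c) * 2 + 1) * 2) := by
                    rw [← pow_mul, ← pow_add, ← pow_add]
                _ ≤ 2 ^ (2 ^ (2 * u) + 1) := by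
                    refine Nat.pow_le_pow_right (by norm_num) ?_
                    rw [us_eq]
                    omega
          · exact hd1 (parts1 a c₀)
          · exact hd1 (parts2 a b₀)
      -- combine
      set X : ((ℕ × List Bool → Bool → List Bool → Bool) → ℝ) → ℝ := fun G =>
        ∑ z, ∑ z', P (lev S c) z * (Q (lev S c) z' *
          G (Function.update D' c (mkp (EQ.enc (us (lev S c)) z) (EQ.enc (us (lev S c)) z')))) -
          ∑ z', Q (lev S c) z' * G (Function.update D' c (mkp (EQ.enc (us (lev S c)) z')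
            (EQ.enc (us (lev S c)) z'))) with hX
      have hlin : X F = ∑ i ∈ IX, wt i * X (φ i) := by
        rw [hX, hF]
        simp only [mul_sub, mul_sum, sum_sub_distrib]
        congr 1
        · rw [sum_congr rfl fun z _ => sum_comm, sum_comm]
          exact sum_congr rfl fun y _ => sum_congr rfl fun z _ => sum_congr rfl fun z' _ => by ring
        · rw [sum_comm]
          exact sum_congr rfl fun y _ => sum_congr rfl fun z' _ => by ring
      show |X F| ≤ _
      rw [hlin]
      refine (abs_sum_le_sum_abs _ _).trans ?_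
      have h1 : ∀ i ∈ IX, |wt i * X (φ i)| ≤ wt i * dl (lev S c) L := fun i hi => by
        rw [abs_mul, abs_of_nonneg (hwt0 i)]
        exact mul_le_mul_of_nonneg_left (claim i hi) (hwt0 i)
      refine (sum_le_sum h1).trans ?_
      rw [← sum_mul, hwtS]) D.bl
  -- the support
  have hEE : 1 ≤ EE (fun c => P (lev S c)) (fun c => Q (lev S c)) (fun c => EQ.enc (us (lev S c))) C F
      D.bl := by
    refine EE_ge (G := fun c v => Yes (lev S c) (v true) ∧ No (lev S c) (v false))
      (fun c => hP0 _) (fun c => hQ0 _) (fun c => hP1 _) (fun c => hQ1 _)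
      (fun c z z' hz hz' => ⟨?_, ?_⟩) C D.bl fun B hB hB' => ?_
    · exact yes_enc (hPG _ z hz)
    · exact no_enc (hQG _ z' hz')
    · rw [hF]
      simp only
      rw [hIX, sum_product_right, ← hwt1]
      refine sum_le_sum fun y _ => ?_
      obtain ⟨P', hP', hR⟩ := hcon ⟨B, frn y⟩ (fun c => by
        by_cases hcC : c ∈ C
        · exact hB c hcC
        · show Yes _ (B c true) ∧ No _ (B c false)
          rw [hB' c hcC]
          exact hD c) (fun c hc' => hB' c fun h2 => by have := ((hCm c).1 h2).1; omega)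
        (fun v hv => hfr3 y v hv)
      have h1 : ∀ P'' ∈ range (Pm + 1), 0 ≤ wt (P'', y) * φ (P'', y) B := fun P'' _ =>
        mul_nonneg (hwt0 _) (by rw [hφ]; simp only; split_ifs <;> norm_num)
      refine le_trans (le_of_eq ?_) (single_le_sum h1 (mem_range.2 (Nat.lt_succ_of_le hP')))
      rw [hφ, hwt]
      simp only
      rw [if_pos hR, mul_one]
  -- the free strings
  have hEC : |EC (fun c => Q (lev S c)) (fun c => EQ.enc (us (lev S c))) C F D.bl| ≤
      ((Pm : ℝ) + 1) * (k * (2 ^ (Λ + 2) * (1 / 2) ^ (2 ^ (2 * u) + 1)) +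
        3 * (1 / 2) ^ (2 ^ u)) := by
    refine EC_le (fun c => hQ0 _) (fun c => hQ1 _) C D.bl fun B hB _ => ?_
    have hφ0 : ∀ i ∈ IX, 0 ≤ wt i * φ i B := fun i _ =>
      mul_nonneg (hwt0 _) (by rw [hφ]; simp only; split_ifs <;> norm_num)
    rw [abs_of_nonneg (by rw [hF]; exact sum_nonneg hφ0), hF]
    simp only
    rw [hIX, sum_product]
    have hterm : ∀ P' ∈ range (Pm + 1), ∑ y : Idx (Fin (2 ^ (u + 11))) (8 * n :: pw as) → Bool,
        wt (P', y) * φ (P', y) B ≤ k * (2 ^ (Λ + 2) * (1 / 2) ^ (2 ^ (2 * u) + 1)) +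
        3 * (1 / 2) ^ (2 ^ u) := by
      intro P' hP'
      have hP2 : P' ≤ Pm := Nat.lt_succ_iff.1 (mem_range.1 hP')
      have hFam : Fam S n T (fun y => (⟨B, frn y⟩ : Dt)) := by
        refine ⟨fun c' _ z z' => rfl, fun v hv z z' => ?_, fun c' h1 h2 => ?_, fun v => ?_⟩
        · show frn z v = frn z' v
          rw [hfr3 z v hv, hfr3 z' v hv]
        · left
          exact ⟨fun z z' => rfl, Or.inr fun z => hB c' ((hCm c').2 ⟨h1, h2⟩)⟩
        · by_cases hv : ∃ a, la xs as (8 * n) a = v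
          · obtain ⟨a, rfl⟩ := hv
            exact Or.inr ⟨a, fun y => hfr1 y a⟩
          · exact Or.inl ⟨D.fr v, fun y => hfr2 y v hv⟩
      have h1 := free_le (g := g) (k := k) (P := P') (Λ := Λ) (ℓ := 2 * P' + 1 + m₀) (M := M) hn hu
        hsz hFam hfr1 (hlen P') (hΛP P' hP2) hcut (fun y hy => (hp y hy).trans hTt)
      refine le_trans (le_of_eq ?_) (h1.trans ?_)
      · rfl
      · have h2 : (2 : ℝ) ^ (2 * P' + 1 + m₀ + k * (2 * P' + 1) + 2) ≤ 2 ^ (Λ + 2) :=
          pow_le_pow_right₀ (by norm_num) (by have := hΛP P' hP2; omega)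
        have h3 : (0 : ℝ) ≤ (1 / 2) ^ (2 ^ (2 * u) + 1) := by positivity
        have h4 := mul_le_mul_of_nonneg_left (mul_le_mul_of_nonneg_right h2 h3)
          (Nat.cast_nonneg (α := ℝ) k)
        linarith
    refine (sum_le_sum hterm).trans (le_of_eq ?_)
    rw [sum_const, card_range, nsmul_eq_mul]
    push_cast
    ring
  -- the contradiction
  rw [hCs, ← mul_sum] at hhyb
  have h1 := sum_dl_le hc.big n T (by linarith : (0 : ℝ) ≤ L)
  have h1' : ∑ c ∈ Pool.Agent.H9x.RT.UU S n T, dl (lev S c) L ≤ (T + 1) * (214 * L / 2 ^ n) := by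
    refine h1.trans (mul_le_mul_of_nonneg_left ?_ (by positivity))
    exact div_le_div_of_nonneg_right (by linarith) (by positivity)
  have h2 : ((Pm : ℝ) + 1) * ∑ c ∈ Pool.Agent.H9x.RT.UU S n T, dl (lev S c) L ≤
      ((Pm : ℝ) + 1) * ((T + 1) * (214 * L / 2 ^ n)) :=
    mul_le_mul_of_nonneg_left h1' (by positivity)
  have h3 := abs_le.1 hhyb
  have h4 := abs_le.1 hEC
  linarith [h3.1, h3.2, h4.1, h4.2]

end Pool.Agent.K7x.ER
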