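import Pool.Agent.K7x.ER.Nums
import Pool.Agent.K7x.ER.Lvl

/-!
# One step of the construction
-/

set_option autoImplicit false

namespace Pool.Agent.K7x.ER

open Finset H568R2 Pool.Agent.H676 Pool.Agent.H620R2.Gauge Pool.Agent.NPC Pool.Agent.H591R3.PHG
  Pool.Agent.H622R2 Pool.Agent.H622R2.Exp

open Pool.Agent.H9x.RT (lev mkp EE EC EC_le hyb exists_list block_diff lv)

open Pool.Agent.H9x.RU (Dt Kr Smp fo la le_la Rt rt_iff SZ exists_SZ LQ LQ_le one_le_LQ lf dtr_lf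
  lv_all EE_ge quant_QF)

open Pool.Agent.K7x.EQ (us us_eq Iu m2e Yes No not_yes yes_enc no_enc enc_cls dl sum_dl_le
  parts1 parts2 va)

/-- the blocks are good -/
def Good (S : ℕ → Polynomial ℕ) (B : ℕ × List Bool → Bool → List Bool → Bool) : Prop :=
  ∀ c, Yes (lev S c) (B c true) ∧ No (lev S c) (B c false)

theorem fo_orc {S : ℕ → Polynomial ℕ} {g : ℕ → SAlg × Polynomial ℕ} (D : Dt) :
    fo (orc S g D) = D.fr := funext fun u => orc_free D u

variable {S : ℕ → Polynomial ℕ} {g : ℕ → SAlg × Polynomial ℕ}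

/-- substituting constants and coordinates -/
theorem smp_comap {I I' : Type} {T : ℕ} {G : (I → Bool) → Oracle} (hG : Smp T G)
    {φ : (I' → Bool) → (I → Bool)} (hφ : ∀ i, (∃ c, ∀ z, φ z i = c) ∨ ∃ i', ∀ z, φ z i = z i') :
    Smp T (fun z => G (φ z)) := by
  intro q hq
  rcases hG q hq with ⟨v, hv⟩ | ⟨i, hi⟩
  · exact Or.inl ⟨v, fun z => hv _⟩
  · rcases hφ i with ⟨c, hc⟩ | ⟨i', hi'⟩
    · exact Or.inl ⟨c, fun z => (hi _).trans (hc z)⟩
    · exact Or.inr ⟨i', fun z => (hi _).trans (hi' z)⟩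

theorem blk_lv {X : Type} [Fintype X] [DecidableEq X] {s T k P Λ ℓ t w : ℕ} {M : Alg}
    {F : (Iu (us s) → Bool) → Dt} (hF : Fam S s T F)
    (hfr : ∀ z z', (F z).fr = (F z').fr) {as : List ℕ} (hk : as.length = k + 1)
    (zz : X → List Bool) (hℓ : ∀ j, (pairBits (List.replicate P true) (enc as w (zz j))).length ≤ ℓ)
    (hΛ : ℓ + k * (2 * P + 1) ≤ Λ)
    (hcut : ∀ (A : Oracle) (y : List Bool), y.length ≤ Λ → M.out (CC.cut T A) y = M.out A y)
    (ht : 1 ≤ t) (hp : ∀ y : List Bool, y.length ≤ Λ → M.p.eval y.length ≤ t)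
    (hβ : k * 2 ^ (ℓ + k * (2 * P + 1) + 2) * (2 ^ (8 * us s * 2 + 1)) ^ 2 ≤ 2 ^ (t + 1))
    {f : (Iu (us s) → Bool) → Bool}
    (hf : ∀ z, f z = true ↔ Rt k P M (fun j => enc as w (zz j)) (orc S g (F z)))
    (c : ((Fin (8 * us s * 2) → Bool) × (Fin (8 * us s) → Bool)) ⊕ (Fin (m2e (us s)) → Bool) → Bool)
    (ρ : Restr ((Fin (8 * us s * 2) → Bool) ⊕ (Fin (8 * us s * 2) → Bool))) :
    lv 2 (br (rs (fun a => f (Sum.elim a c)) ρ)) 0 ≤
      ((((t * Fintype.card X : ℕ) : ℝ)) ^ 2 + 1) * (24 * (t : ℝ)) ^ (2 * k) := by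
  have hcard : Fintype.card ((Fin (8 * us s * 2) → Bool) ⊕ (Fin (8 * us s * 2) → Bool)) =
      2 ^ (8 * us s * 2 + 1) := by
    rw [Fintype.card_sum]
    simp only [Fintype.card_fun, Fintype.card_bool, Fintype.card_fin]
    rw [pow_succ]
    ring
  have hsmp : Smp T (fun a : (Fin (8 * us s * 2) → Bool) ⊕ (Fin (8 * us s * 2) → Bool) → Bool =>
      orc S g (F (Sum.elim a c))) := smp_comap (G := fun z => orc S g (F z)) hF.smp
    (φ := fun a => Sum.elim a c) fun i => by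
      rcases i with i | i
      · exact Or.inr ⟨i, fun z => rfl⟩
      · exact Or.inl ⟨c i, fun z => rfl⟩
  refine lv_all ht P k ℓ (lf M T fun a => orc S g (F (Sum.elim a c)))
    (fun y hy => dtr_lf hsmp M y (hp y (by omega)))
    (fun j => pairBits (List.replicate P true) (enc as w (zz j))) hℓ true
    (fun j => Tr (w :: pw as) (leaves (fun j => enc as w (zz j)) as w (F fun _ => false).fr) j)
    (by rw [hcard]; exact hβ) (fun z => ?_) ρ
  rw [hf, rt_iff (T := T) (Λ := Λ) hk zz (fun j => by have := hℓ j; omega) hcut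
    (fun a => orc S g (F (Sum.elim a c))) z]
  refine forall_congr' fun j => ?_
  rw [fo_orc, hfr _ fun _ => false]

open Classical in
theorem blk_dtr {I X : Type} [Fintype I] [DecidableEq I] [Fintype X] [DecidableEq X]
    {s T k P Λ ℓ t w : ℕ} {M : Alg}
    {F : (Iu (us s) → Bool) → Dt} (hF : Fam S s T F)
    (hfr : ∀ z z', (F z).fr = (F z').fr) {as : List ℕ} (hk : as.length = k + 1)
    (zz : X → List Bool) (hℓ : ∀ j, (pairBits (List.replicate P true) (enc as w (zz j))).length ≤ ℓ)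
    (hΛ : ℓ + k * (2 * P + 1) ≤ Λ)
    (hcut : ∀ (A : Oracle) (y : List Bool), y.length ≤ Λ → M.out (CC.cut T A) y = M.out A y)
    (ht : 1 ≤ t) (hp : ∀ y : List Bool, y.length ≤ Λ → M.p.eval y.length ≤ t)
    {f : (Iu (us s) → Bool) → Bool}
    (hf : ∀ z, f z = true ↔ Rt k P M (fun j => enc as w (zz j)) (orc S g (F z)))
    {φ : (I → Bool) → (Iu (us s) → Bool)}
    (hφ : ∀ i, (∃ c, ∀ z, φ z i = c) ∨ ∃ i', ∀ z, φ z i = z i') :
    Ex (wq ((1 / (24 * (t : ℝ))) ^ k)) (fun ρ : Restr I =>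
      if ¬ DTr (t * Fintype.card X) (rs (fun a => f (φ a)) ρ) then (1 : ℝ) else 0) ≤
      k * 2 ^ (ℓ + k * (2 * P + 1) + 2) * (1 / 2) ^ (t + 1) := by
  have hsmp : Smp T (fun a : I → Bool => orc S g (F (φ a))) :=
    smp_comap (G := fun z => orc S g (F z)) hF.smp hφ
  refine dtr_all ht P k ℓ (lf M T fun a => orc S g (F (φ a)))
    (fun y hy => dtr_lf hsmp M y (hp y (by omega)))
    (fun j => pairBits (List.replicate P true) (enc as w (zz j))) hℓ true
    (fun j => Tr (w :: pw as) (leaves (fun j => enc as w (zz j)) as w (F fun _ => false).fr) j)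
    (fun z => ?_)
  rw [hf, rt_iff (T := T) (Λ := Λ) hk zz (fun j => by have := hℓ j; omega) hcut
    (fun a => orc S g (F (φ a))) z]
  refine forall_congr' fun j => ?_
  rw [fo_orc, hfr _ fun _ => false]

open Classical in
/-- the free strings -/
theorem free_le {n u k P T Λ ℓ : ℕ} {M : Alg} {as : List ℕ} (hn : 5 ≤ n) (hu : 8 * u ≤ n)
    (hsz : SZ n u k as)
    {F : (Idx (Fin (2 ^ (u + 11))) (8 * n :: pw as) → Bool) → Dt} (hF : Fam S n T F)
    (hfr : ∀ y g, (F y).fr (la (fun j : Fin (2 ^ (u + 11)) => enc as (8 * n)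
      (bitsOf (u + 11) j)) as (8 * n) g) = y g)
    (hℓ : ∀ j : Fin (2 ^ (u + 11)), (pairBits (List.replicate P true) (enc as (8 * n)
      (bitsOf (u + 11) j))).length ≤ ℓ) (hΛ : ℓ + k * (2 * P + 1) ≤ Λ)
    (hcut : ∀ (A : Oracle) (y : List Bool), y.length ≤ Λ → M.out (CC.cut T A) y = M.out A y)
    (hp : ∀ y : List Bool, y.length ≤ Λ → M.p.eval y.length ≤ 2 ^ (2 * u)) :
    ∑ y : Idx (Fin (2 ^ (u + 11))) (8 * n :: pw as) → Bool, (∏ i, ber (1 / 2) (y i)) *
      (if Rt k P M (fun j : Fin (2 ^ (u + 11)) => enc as (8 * n) (bitsOf (u + 11) j))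
        (orc S g (F y)) then (1 : ℝ) else 0) ≤
      k * (2 ^ (ℓ + k * (2 * P + 1) + 2) * (1 / 2) ^ (2 ^ (2 * u) + 1)) +
        3 * (1 / 2) ^ (2 ^ u) := by
  obtain ⟨h1, h2, h3⟩ := hsz
  have hlen : (pw as).length = k + 1 := by
    rw [pw, List.length_map]; exact h1
  have hml := main_leaf (X := Fin (2 ^ (u + 11))) (n := n) (u := u) (D := 2 ^ (3 * u + 11))
    (g := 2 ^ (u + 9)) hn hu (by
      rw [Fintype.card_fin, ← pow_add]
      exact Nat.pow_le_pow_right (by norm_num) (by omega)) k (pw as) hlen P ℓ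
    (lf M T fun y => orc S g (F y)) (fun y hy => dtr_lf hF.smp M y (hp y (by omega)))
    (fun j : Fin (2 ^ (u + 11)) => pairBits (List.replicate P true) (enc as (8 * n)
      (bitsOf (u + 11) j))) hℓ true
  have h6 := final_numbers hn hu
  refine le_trans (le_of_eq ?_) (hml.trans (by linarith))
  unfold Ms Ex
  refine sum_congr rfl fun y _ => ?_
  congr 1
  have h7 : Rt k P M (fun j : Fin (2 ^ (u + 11)) => enc as (8 * n) (bitsOf (u + 11) j))
      (orc S g (F y)) ↔ ∀ j : Fin (2 ^ (u + 11)), QF P (lf M T fun y => orc S g (F y)) k true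
        (pairBits (List.replicate P true) (enc as (8 * n) (bitsOf (u + 11) j))) y ≠
        Tr (8 * n :: pw as) (leaves (fun j : Fin (2 ^ (u + 11)) => enc as (8 * n)
          (bitsOf (u + 11) j)) as (8 * n) (fo (orc S g (F y)))) j :=
    rt_iff (T := T) (Λ := Λ) (M := M) h1 (fun j : Fin (2 ^ (u + 11)) => bitsOf (u + 11) j)
      (fun j => (Nat.add_le_add_right (hℓ j) _).trans hΛ) hcut (fun y => orc S g (F y)) y
  have h8 : leaves (fun j : Fin (2 ^ (u + 11)) => enc as (8 * n) (bitsOf (u + 11) j)) as (8 * n)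
      (fo (orc S g (F y))) = val (fun _ => none) y := by
    funext g'
    rw [fo_orc]
    exact hfr y g'
  rw [h8] at h7
  by_cases h9 : Rt k P M (fun j : Fin (2 ^ (u + 11)) => enc as (8 * n) (bitsOf (u + 11) j))
        (orc S g (F y))
  · rw [if_pos h9]
    exact (if_pos (h7.1 h9)).symm
  · rw [if_neg h9]
    exact (if_neg fun h => h9 (h7.2 h)).symm

end Pool.Agent.K7x.ER
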